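import Pool.Agent.Q261.ML.Main

/-!
# Lattices of rank `2mn` in `M_n(ℂ)` with non-vanishing `Δ_m`

We prove the statement of Q1: such a lattice exists only if `m = n` or `(n, m) = (2, 1)`.
-/

set_option autoImplicit false

namespace Pool.Agent.Results.MP_62b2e8_nt.OnlyFullRankOrAlamouti

/-- `λ_i(X)`, the `i`-th smallest singular value of the `n × n` matrix `X`, `1 ≤ i ≤ n`.
Mathlib's `LinearMap.singularValues` is the list of the singular values in decreasing order,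
indexed from `0`, so the `i`-th smallest one has index `n - i`. -/
noncomputable def lam {n : ℕ} (X : Matrix (Fin n) (Fin n) ℂ) (i : ℕ) : ℝ :=
  (Matrix.toEuclideanLin X).singularValues (n - i)

/-- `Δ_s(X) = ∏_{i=1}^s λ_i(X)²`. -/
noncomputable def Delta {n : ℕ} (s : ℕ) (X : Matrix (Fin n) (Fin n) ℂ) : ℝ :=
  ∏ i ∈ Finset.Icc 1 s, lam X i ^ 2

/-- `Δ_s(𝓛) = inf {Δ_s(X) : X ∈ 𝓛 \ {0}}`. -/
noncomputable def DeltaInf {n : ℕ} (s : ℕ) (L : Submodule ℤ (Matrix (Fin n) (Fin n) ℂ)) : ℝ :=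
  sInf (Delta s '' {X | X ∈ L ∧ X ≠ 0})

/-- **Main result** (Q1, answered in the affirmative). Let `n ≥ m ≥ 1` and let
`𝓛 = ℤ B_1 ⊕ ⋯ ⊕ ℤ B_{2mn}` be a lattice of rank `2mn` in `M_n(ℂ)` (the `B_i` are linearly
independent over `ℝ`). If `Δ_m(𝓛) ≠ 0`, then `m = n`, or `n = 2` and `m = 1`. -/
theorem result (n m : ℕ) (hm : 1 ≤ m) (hmn : m ≤ n)
    (B : Fin (2 * m * n) → Matrix (Fin n) (Fin n) ℂ) (hB : LinearIndependent ℝ B)
    (h : DeltaInf m (Submodule.span ℤ (Set.range B)) ≠ 0) : m = n ∨ (n = 2 ∧ m = 1) :=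
  Q261.ML.main n m hm hmn B hB h

end Pool.Agent.Results.MP_62b2e8_nt.OnlyFullRankOrAlamouti
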